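import Pool.Agent.Helper96.OP.Defs2

/-!
# MP_2214fc_al, module B: Whitehead automorphisms from Gersten's relations
-/

set_option autoImplicit false

open Finset

namespace Pool.Agent.Helper45.OP

open Pool.Agent.Helper96.OP

variable {ι : Type} [DecidableEq ι] {G : Type} [Group G]

section basics

variable (𝔤 : Gersten ι G)

lemma E_pow_comm (a x y : Ltr ι) (k l : ℤ) : Commute (𝔤.E x a ^ k) (𝔤.E y a ^ l) :=
  (show Commute (𝔤.E x a) (𝔤.E y a) from 𝔤.E_comm x y a).zpow_zpow k l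

variable [Fintype ι]

lemma TT_comm (a : Ltr ι) (f : Ltr ι → ℤ) :
    ((univ : Finset (Ltr ι)) : Set (Ltr ι)).Pairwise
      (Function.onFun Commute fun x => 𝔤.E x a ^ f x) :=
  fun x _ y _ _ => E_pow_comm 𝔤 a x y _ _

/-- The product of the `E x a ^ f x`. -/
def TT (a : Ltr ι) (f : Ltr ι → ℤ) : G :=
  univ.noncommProd (fun x => 𝔤.E x a ^ f x) (TT_comm 𝔤 a f)

lemma TT_congr {a : Ltr ι} {f g : Ltr ι → ℤ} (h : ∀ y : Ltr ι, y.1 ≠ a.1 → f y = g y) :
    TT 𝔤 a f = TT 𝔤 a g := by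
  apply Finset.noncommProd_congr rfl
  intro x _
  by_cases hx : x.1 = a.1
  · rw [𝔤.E_self x a hx, one_zpow, one_zpow]
  · rw [h x hx]

lemma TT_add (a : Ltr ι) (f g : Ltr ι → ℤ) : TT 𝔤 a (f + g) = TT 𝔤 a f * TT 𝔤 a g := by
  unfold TT
  rw [← Finset.noncommProd_mul_distrib (fun x => 𝔤.E x a ^ f x) (fun x => 𝔤.E x a ^ g x)
    (fun x _ y _ _ => E_pow_comm 𝔤 a x y _ _) (fun x _ y _ _ => E_pow_comm 𝔤 a x y _ _)
    (fun x _ y _ _ => E_pow_comm 𝔤 a x y _ _)]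
  apply Finset.noncommProd_congr rfl
  intro x _
  rw [Pi.add_apply, Pi.mul_apply, zpow_add]

lemma TT_zero (a : Ltr ι) : TT 𝔤 a 0 = 1 := by
  unfold TT
  rw [Finset.noncommProd_eq_pow_card _ _ _ 1 (fun x _ => by simp), one_pow]

lemma TT_eq_one {a : Ltr ι} {f : Ltr ι → ℤ} (h : ∀ y : Ltr ι, y.1 ≠ a.1 → f y = 0) :
    TT 𝔤 a f = 1 := by
  rw [← TT_zero 𝔤 a]
  exact TT_congr 𝔤 h

lemma TT_neg (a : Ltr ι) (f : Ltr ι → ℤ) : TT 𝔤 a (-f) = (TT 𝔤 a f)⁻¹ := by
  apply eq_inv_of_mul_eq_one_left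
  rw [← TT_add, neg_add_cancel, TT_zero]

lemma TT_inv (a : Ltr ι) (f : Ltr ι → ℤ) : TT 𝔤 (inv a) f = TT 𝔤 a (-f) := by
  apply Finset.noncommProd_congr rfl
  intro x _
  rw [𝔤.E_inv, Pi.neg_apply, inv_zpow, zpow_neg]

lemma TT_inv' (a : Ltr ι) (f : Ltr ι → ℤ) : TT 𝔤 (inv a) f = (TT 𝔤 a f)⁻¹ := by
  rw [TT_inv, TT_neg]

lemma TT_commute {a : Ltr ι} {f : Ltr ι → ℤ} {g : G}
    (h : ∀ y : Ltr ι, y.1 ≠ a.1 → f y ≠ 0 → Commute g (𝔤.E y a)) : Commute g (TT 𝔤 a f) := by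
  apply Finset.noncommProd_commute
  intro x _
  by_cases hx : x.1 = a.1
  · rw [𝔤.E_self x a hx, one_zpow]
    exact Commute.one_right g
  · by_cases hf : f x = 0
    · rw [hf, zpow_zero]
      exact Commute.one_right g
    · exact (h x hx hf).zpow_right _

lemma TT_single (a x : Ltr ι) (k : ℤ) : TT 𝔤 a (Pi.single x k) = 𝔤.E x a ^ k := by
  have hc : ((univ.erase x : Finset (Ltr ι)) : Set (Ltr ι)).Pairwise
      (Function.onFun Commute fun y => 𝔤.E y a ^ (Pi.single x k : Ltr ι → ℤ) y) :=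
    (TT_comm 𝔤 a (Pi.single x k)).mono (Finset.coe_subset.2 (Finset.erase_subset _ _))
  have h := Finset.mul_noncommProd_erase univ (Finset.mem_univ x)
    (fun y => 𝔤.E y a ^ (Pi.single x k : Ltr ι → ℤ) y) (TT_comm 𝔤 a (Pi.single x k)) hc
  have h2 : (univ.erase x).noncommProd (fun y => 𝔤.E y a ^ (Pi.single x k : Ltr ι → ℤ) y) hc
      = 1 := by
    rw [Finset.noncommProd_eq_pow_card _ _ _ 1, one_pow]
    intro y hy
    rw [Pi.single_eq_of_ne (Finset.ne_of_mem_erase hy), zpow_zero]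
  unfold TT
  rw [← h, h2, mul_one, Pi.single_eq_same]

lemma TT_single_one (a x : Ltr ι) : TT 𝔤 a (Pi.single x 1) = 𝔤.E x a := by
  rw [TT_single, zpow_one]

/-- Two homomorphisms that agree on the generators. -/
lemma TT_unique {H : Type} [Group H] (φ : G →* H) (a : Ltr ι) (F : (Ltr ι → ℤ) → H)
    (hadd : ∀ f g, F (f + g) = F f * F g)
    (hs : ∀ x, F (Pi.single x 1) = φ (𝔤.E x a)) (f : Ltr ι → ℤ) : F f = φ (TT 𝔤 a f) := by
  have h0 : F 0 = 1 := by
    have := hadd 0 0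
    rw [add_zero] at this
    exact (mul_eq_left.1 this.symm)
  let Fh : Multiplicative (Ltr ι → ℤ) →* H :=
    { toFun := fun f => F f.toAdd
      map_one' := h0
      map_mul' := fun f g => hadd _ _ }
  have hk : ∀ x (k : ℤ), F (Pi.single x k) = φ (𝔤.E x a) ^ k := by
    intro x k
    rw [← hs]
    have h1 : F (Pi.single x k) = Fh ((Multiplicative.ofAdd (Pi.single x (1 : ℤ))) ^ k) := by
      show _ = F _
      congr 1
      rw [toAdd_zpow, toAdd_ofAdd, ← Pi.single_smul']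
      simp
    rw [h1, map_zpow]
    rfl
  have key : ∀ s : Finset (Ltr ι), F (∑ x ∈ s, Pi.single x (f x)) =
      φ (TT 𝔤 a (∑ x ∈ s, Pi.single x (f x))) := by
    intro s
    induction s using Finset.induction_on with
    | empty => rw [Finset.sum_empty, h0, TT_zero, map_one]
    | insert x s hx ih =>
      rw [Finset.sum_insert hx, hadd, ih, TT_add, map_mul, TT_single, map_zpow, hk]
  have := key univ
  rwa [Finset.univ_sum_single] at this

omit [Fintype ι]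

/-- Indicator function of a set of letters. -/
def ind (S : Finset (Ltr ι)) : Ltr ι → ℤ := fun x => if x ∈ S then 1 else 0

lemma ind_empty : ind (∅ : Finset (Ltr ι)) = 0 := by
  funext x
  simp [ind]

lemma ind_insert {x : Ltr ι} {S : Finset (Ltr ι)} (hx : x ∉ S) :
    ind (insert x S) = Pi.single x 1 + ind S := by
  funext y
  by_cases hy : y = x
  · subst hy
    simp [ind, hx]
  · simp [ind, hy]

lemma ind_apply (S : Finset (Ltr ι)) (x : Ltr ι) : ind S x = if x ∈ S then 1 else 0 := rfl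

variable [Fintype ι]

lemma TT_insert (a : Ltr ι) {x : Ltr ι} {S : Finset (Ltr ι)} (hx : x ∉ S) :
    TT 𝔤 a (ind (insert x S)) = 𝔤.E x a * TT 𝔤 a (ind S) := by
  rw [ind_insert hx, TT_add, TT_single_one]

lemma TT_empty (a : Ltr ι) : TT 𝔤 a (ind ∅) = 1 := by
  rw [ind_empty, TT_zero]

end basics

section relations

variable (𝔤 : Gersten ι G)

omit [DecidableEq ι] in
lemma inv_ne_of_fst_ne {x y : Ltr ι} (h : x.1 ≠ y.1) : x ≠ inv y := by
  rintro rfl
  exact h rfl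

/-- H4', first form -/
lemma rel4a {x a b : Ltr ι} (h1 : x.1 ≠ a.1) (h2 : x.1 ≠ b.1) (h3 : a.1 ≠ b.1) :
    𝔤.E (inv a) b * 𝔤.E x a = (𝔤.E x b)⁻¹ * 𝔤.E x a * 𝔤.E (inv a) b := by
  have h := 𝔤.E_conj x (inv a) b h1 h2 h3
  rw [𝔤.E_inv] at h
  -- p' X⁻¹ p'⁻¹ = X⁻¹ Y
  have h' := congrArg (fun g => g⁻¹) h
  simp only [mul_inv_rev, _root_.inv_inv] at h'
  -- (X * (stuff))
  calc 𝔤.E (inv a) b * 𝔤.E x a
      = (𝔤.E (inv a) b * (𝔤.E x a * (𝔤.E (inv a) b)⁻¹)) * 𝔤.E (inv a) b := by group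
    _ = _ := by rw [h']

/-- H4', second form -/
lemma rel4b {x a b : Ltr ι} (h1 : x.1 ≠ a.1) (h2 : x.1 ≠ b.1) (h3 : a.1 ≠ b.1) :
    𝔤.E x a * 𝔤.E (inv a) b = 𝔤.E x b * 𝔤.E (inv a) b * 𝔤.E x a := by
  rw [mul_assoc, rel4a 𝔤 h1 h2 h3]
  group

variable [Fintype ι]

/-- (C1) -/
lemma C1 {x a b : Ltr ι} (hx : x.1 ≠ a.1) : Commute (𝔤.E x b) (TT 𝔤 a 1) := by
  by_cases hxb : x.1 = b.1
  · rw [𝔤.E_self x b hxb]
    exact Commute.one_left _
  by_cases hab : b.1 = a.1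
  · apply TT_commute
    intro y _ _
    rcases eq_or_eq_inv hab with rfl | rfl
    · exact 𝔤.E_comm _ _ _
    · rw [𝔤.E_inv]
      exact (show Commute (𝔤.E x a) (𝔤.E y a) from 𝔤.E_comm _ _ _).inv_left
  -- the main case
  have hxb1 : x ≠ b := fun h => hxb (h ▸ rfl)
  have hxb2 : x ≠ inv b := fun h => hxb (h ▸ rfl)
  set r : Ltr ι → ℤ := 1 - (Pi.single x 1 + Pi.single b 1 + Pi.single (inv b) 1) with hr
  have hdec : (1 : Ltr ι → ℤ) = Pi.single x 1 + Pi.single b 1 + Pi.single (inv b) 1 + r := by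
    rw [hr]; abel
  rw [hdec, TT_add, TT_add, TT_add, TT_single_one, TT_single_one, TT_single_one]
  apply Commute.mul_right
  · -- `X q r`
    have e1 := 𝔤.E_conj x b a hxb hx hab
    have e2 := rel4a 𝔤 hxb hx hab
    have e2' : 𝔤.E (inv b) a * 𝔤.E x b * (𝔤.E (inv b) a)⁻¹ = (𝔤.E x a)⁻¹ * 𝔤.E x b := by
      rw [e2]; group
    have c1 := 𝔤.E_comm x b a
    have c2 := 𝔤.E_comm x (inv b) a
    show 𝔤.E x b * (𝔤.E x a * 𝔤.E b a * 𝔤.E (inv b) a) =
      𝔤.E x a * 𝔤.E b a * 𝔤.E (inv b) a * 𝔤.E x b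
    have s1 : 𝔤.E (inv b) a * 𝔤.E x b = (𝔤.E x a)⁻¹ * 𝔤.E x b * 𝔤.E (inv b) a := e2
    have s2 : 𝔤.E b a * 𝔤.E x b = 𝔤.E x b * 𝔤.E x a * 𝔤.E b a := by
      rw [← e1]; group
    calc 𝔤.E x b * (𝔤.E x a * 𝔤.E b a * 𝔤.E (inv b) a)
        = (𝔤.E x b * 𝔤.E x a * 𝔤.E b a) * 𝔤.E (inv b) a := by group
      _ = 𝔤.E b a * 𝔤.E x b * 𝔤.E (inv b) a := by rw [← s2]
      _ = (𝔤.E b a * 𝔤.E x a) * ((𝔤.E x a)⁻¹ * 𝔤.E x b * 𝔤.E (inv b) a) := by group
      _ = (𝔤.E x a * 𝔤.E b a) * (𝔤.E (inv b) a * 𝔤.E x b) := by rw [← c1, ← s1]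
      _ = 𝔤.E x a * 𝔤.E b a * 𝔤.E (inv b) a * 𝔤.E x b := by group
  · apply TT_commute
    intro y hya hy0
    have hyx : y ≠ x := by
      rintro rfl
      apply hy0
      simp [hr, hxb1, hxb2]
    have hyb : y ≠ b := by
      rintro rfl
      apply hy0
      simp [hr, hyx, (inv_ne y).symm]
    have hyb' : y ≠ inv b := by
      rintro rfl
      apply hy0
      simp [hr, hyx, (inv_ne b)]
    have hyb1 : y.1 ≠ b.1 := fun h => by
      rcases eq_or_eq_inv h with h | h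
      · exact hyb h
      · exact hyb' h
    exact 𝔤.E_disj x y b a (Ne.symm hyx) hxb hx hyb1 hya hab

/-- the product of the conjugates, first form -/
lemma P1 {a b : Ltr ι} (hab : a.1 ≠ b.1) (S : Finset (Ltr ι))
    (hS : ∀ x ∈ S, x.1 ≠ a.1 ∧ x.1 ≠ b.1) :
    TT 𝔤 a (ind S) * 𝔤.E (inv a) b = TT 𝔤 b (ind S) * 𝔤.E (inv a) b * TT 𝔤 a (ind S) := by
  induction S using Finset.induction_on with
  | empty => rw [TT_empty, TT_empty]; group
  | insert x S hx ih =>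
    have hx1 := hS x (Finset.mem_insert_self x S)
    have ih' := ih (fun y hy => hS y (Finset.mem_insert_of_mem hy))
    rw [TT_insert 𝔤 a hx, TT_insert 𝔤 b hx]
    have hc : Commute (𝔤.E x a) (TT 𝔤 b (ind S)) := by
      apply TT_commute
      intro y hy hy0
      have hyS : y ∈ S := by
        by_contra h
        exact hy0 (by simp [ind, h])
      have hy1 := hS y (Finset.mem_insert_of_mem hyS)
      exact 𝔤.E_disj x y a b (fun h => hx (h ▸ hyS)) hx1.1 hx1.2 hy1.1 hy1.2 hab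
    have hc2 : Commute (𝔤.E x b) (TT 𝔤 b (ind S)) := by
      apply TT_commute
      intro y _ _
      exact 𝔤.E_comm _ _ _
    have e := rel4b 𝔤 hx1.1 hx1.2 hab
    calc 𝔤.E x a * TT 𝔤 a (ind S) * 𝔤.E (inv a) b
        = 𝔤.E x a * (TT 𝔤 a (ind S) * 𝔤.E (inv a) b) := by group
      _ = (𝔤.E x a * TT 𝔤 b (ind S)) * 𝔤.E (inv a) b * TT 𝔤 a (ind S) := by rw [ih']; group
      _ = TT 𝔤 b (ind S) * (𝔤.E x a * 𝔤.E (inv a) b) * TT 𝔤 a (ind S) := by rw [hc.eq]; group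
      _ = (TT 𝔤 b (ind S) * 𝔤.E x b) * 𝔤.E (inv a) b * (𝔤.E x a * TT 𝔤 a (ind S)) := by
          rw [e]; group
      _ = 𝔤.E x b * TT 𝔤 b (ind S) * 𝔤.E (inv a) b * (𝔤.E x a * TT 𝔤 a (ind S)) := by
          rw [← hc2.eq]

/-- the product of the conjugates, second form -/
lemma P2 {a b : Ltr ι} (hab : a.1 ≠ b.1) (S : Finset (Ltr ι))
    (hS : ∀ x ∈ S, x.1 ≠ a.1 ∧ x.1 ≠ b.1) :
    𝔤.E a b * TT 𝔤 a (ind S) = TT 𝔤 a (ind S) * TT 𝔤 b (ind S) * 𝔤.E a b := by
  induction S using Finset.induction_on with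
  | empty => rw [TT_empty, TT_empty]; group
  | insert x S hx ih =>
    have hx1 := hS x (Finset.mem_insert_self x S)
    have ih' := ih (fun y hy => hS y (Finset.mem_insert_of_mem hy))
    rw [TT_insert 𝔤 a hx, TT_insert 𝔤 b hx]
    have hc : Commute (𝔤.E x b) (TT 𝔤 a (ind S)) := by
      apply TT_commute
      intro y hy hy0
      have hyS : y ∈ S := by
        by_contra h
        exact hy0 (by simp [ind, h])
      have hy1 := hS y (Finset.mem_insert_of_mem hyS)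
      exact 𝔤.E_disj x y b a (fun h => hx (h ▸ hyS)) hx1.2 hx1.1 hy1.2 hy1.1 (Ne.symm hab)
    have e : 𝔤.E a b * 𝔤.E x a = 𝔤.E x a * 𝔤.E x b * 𝔤.E a b := by
      rw [← 𝔤.E_conj x a b hx1.1 hx1.2 hab]; group
    calc 𝔤.E a b * (𝔤.E x a * TT 𝔤 a (ind S))
        = (𝔤.E a b * 𝔤.E x a) * TT 𝔤 a (ind S) := by group
      _ = 𝔤.E x a * 𝔤.E x b * (𝔤.E a b * TT 𝔤 a (ind S)) := by rw [e]; group
      _ = 𝔤.E x a * (𝔤.E x b * TT 𝔤 a (ind S)) * TT 𝔤 b (ind S) * 𝔤.E a b := by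
          rw [ih']; group
      _ = 𝔤.E x a * TT 𝔤 a (ind S) * (𝔤.E x b * TT 𝔤 b (ind S)) * 𝔤.E a b := by
          rw [hc.eq]; group

/-- sets of letters away from each other -/
lemma P3 {a b : Ltr ι} (hab : a.1 ≠ b.1) (S S' : Finset (Ltr ι)) (hd : Disjoint S S')
    (hS : ∀ x ∈ S, x.1 ≠ a.1 ∧ x.1 ≠ b.1) (hS' : ∀ x ∈ S', x.1 ≠ a.1 ∧ x.1 ≠ b.1) :
    Commute (TT 𝔤 a (ind S)) (TT 𝔤 b (ind S')) := by
  apply TT_commute
  intro y _ hy0
  have hyS : y ∈ S' := by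
    by_contra h
    exact hy0 (by simp [ind, h])
  apply Commute.symm
  apply TT_commute
  intro x _ hx0
  have hxS : x ∈ S := by
    by_contra h
    exact hx0 (by simp [ind, h])
  exact 𝔤.E_disj y x b a (fun h => (Finset.disjoint_left.1 hd) hxS (h ▸ hyS)) (hS' y hyS).2
    (hS' y hyS).1 (hS x hxS).2 (hS x hxS).1 (Ne.symm hab)

omit [Fintype ι] in
/-- the swap `w : a ↦ b ↦ a⁻¹` -/
lemma ap_w {a b : Ltr ι} (hab : a.1 ≠ b.1) :
    ap (sw b (inv a) * sw a (inv a)) a = b ∧ ap (sw b (inv a) * sw a (inv a)) b = inv a ∧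
    ∀ x : Ltr ι, x.1 ≠ a.1 → x.1 ≠ b.1 → ap (sw b (inv a) * sw a (inv a)) x = x := by
  have h1 : b ≠ a := fun h => hab (h ▸ rfl)
  have h2 : b ≠ inv a := fun h => hab (h ▸ rfl)
  refine ⟨?_, ?_, ?_⟩
  · rw [ap_mul, sw_app, sw_app]
    have : swFun a (inv a) a = inv a := by simp [swFun]
    rw [this]
    unfold swFun
    rw [if_neg (Ne.symm h2), if_pos rfl]
  · rw [ap_mul, sw_app, sw_app]
    have : swFun a (inv a) b = b := by
      unfold swFun
      rw [if_neg h1, if_neg h2, if_neg h2, inv_inv, if_neg h1]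
    rw [this]
    simp [swFun]
  · intro x hxa hxb
    have g1 : x ≠ a := fun h => hxa (h ▸ rfl)
    have g2 : x ≠ inv a := fun h => hxa (h ▸ rfl)
    have g3 : x ≠ b := fun h => hxb (h ▸ rfl)
    have g4 : x ≠ inv b := fun h => hxb (h ▸ rfl)
    rw [ap_mul, sw_app, sw_app]
    have : swFun a (inv a) x = x := by
      unfold swFun
      rw [if_neg g1, if_neg g2, if_neg g2, inv_inv, if_neg g1]
    rw [this]
    unfold swFun
    rw [if_neg g3, if_neg g2, if_neg g4, inv_inv, if_neg g1]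

omit [Fintype ι] in
/-- the relations with `w = E a b * (E b a)⁻¹ * (E a⁻¹ b)⁻¹` -/
lemma w_rel {a b : Ltr ι} (hab : a.1 ≠ b.1) :
    𝔤.E a b * (𝔤.E b a)⁻¹ * (𝔤.E (inv a) b)⁻¹ = 𝔤.ρ (sw b (inv a) * sw a (inv a)) :=
  𝔤.E_rank b a (Ne.symm hab)

omit [Fintype ι] in
lemma w_conj {a b : Ltr ι} (hab : a.1 ≠ b.1) (x : Ltr ι) :
    𝔤.ρ (sw b (inv a) * sw a (inv a)) * 𝔤.E x a =
      𝔤.E (ap (sw b (inv a) * sw a (inv a)) x) b * 𝔤.ρ (sw b (inv a) * sw a (inv a)) := by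
  have h := 𝔤.E_act (sw b (inv a) * sw a (inv a)) x a
  rw [(ap_w hab).1] at h
  rw [← h]
  group

omit [Fintype ι] in
/-- rank two -/
lemma rank2 {a b : Ltr ι} (hab : a.1 ≠ b.1) :
    𝔤.E a b * 𝔤.E b a * 𝔤.E (inv b) a =
      𝔤.E a b * 𝔤.E (inv a) b * 𝔤.E b a * 𝔤.E (inv b) a * 𝔤.E a b := by
  have hw := w_rel 𝔤 hab
  obtain ⟨wa, wb, -⟩ := ap_w hab
  set v := sw b (inv a) * sw a (inv a) with hv
  set w := 𝔤.ρ v with hwdef
  set p := 𝔤.E a b with hp
  set q := 𝔤.E b a with hq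
  set p' := 𝔤.E (inv a) b with hp'
  set q' := 𝔤.E (inv b) a with hq'
  have e1 : w * p * w⁻¹ = q⁻¹ := by
    rw [hwdef, hp, 𝔤.E_act, wa, wb, 𝔤.E_inv]
  have e2 : w * q * w⁻¹ = p' := by
    rw [hwdef, hq, 𝔤.E_act, wa, wb]
  have wia : ap v (inv a) = inv b := by rw [ap_inv, wa]
  have wib : ap v (inv b) = a := by rw [ap_inv, wb, inv_inv]
  have e3 : w * p' * w⁻¹ = q'⁻¹ := by
    rw [hwdef, hp', 𝔤.E_act, wia, wb, 𝔤.E_inv]
  have e4 : w * q' * w⁻¹ = p := by
    rw [hwdef, hq', 𝔤.E_act, wib, wa]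
  have cq : q * q' = q' * q := 𝔤.E_comm b (inv b) a
  -- w = q' p q⁻¹
  have f4 : w * q' = p * w := by rw [← e4]; group
  have f1 : p = w⁻¹ * q⁻¹ * w := by rw [← e1]; group
  have f2 : q = w⁻¹ * p' * w := by rw [← e2]; group
  have f5 : w = q' * p * q⁻¹ := by
    have hq4 : q' = w⁻¹ * p * w := by rw [← e4]; group
    have : q' * p * q⁻¹ = w⁻¹ * (p * q⁻¹ * p'⁻¹) * w := by
      rw [hq4]
      nth_rewrite 2 [f1]
      nth_rewrite 2 [f2]
      group
    rw [this, hw]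
    group
  -- braid
  have braid : q' * p * q' = p * q' * p := by
    have h1 : q' * p * q⁻¹ * q' = p * (q' * p * q⁻¹) := by rw [← f5]; exact f4
    have h2 : q⁻¹ * q' = q' * q⁻¹ := by
      have : q * (q⁻¹ * q' * q) = q * q' := by rw [cq]; group
      have h3 : q⁻¹ * q' * q = q' := mul_left_cancel this
      calc q⁻¹ * q' = (q⁻¹ * q' * q) * q⁻¹ := by group
        _ = q' * q⁻¹ := by rw [h3]
    have h3 : q' * p * q' * q⁻¹ = p * q' * p * q⁻¹ := by
      calc q' * p * q' * q⁻¹ = q' * p * (q' * q⁻¹) := by group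
        _ = q' * p * q⁻¹ * q' := by rw [← h2]; group
        _ = p * q' * p * q⁻¹ := by rw [h1]; group
    exact mul_right_cancel h3
  -- p' = q p⁻¹ q'⁻¹ p q⁻¹
  have hpp : p' = q * p⁻¹ * q'⁻¹ * p * q⁻¹ := by
    have h1 : p * q⁻¹ * p'⁻¹ = q' * p * q⁻¹ := by rw [hw]; exact f5
    have h2 : p'⁻¹ = q * p⁻¹ * (q' * p * q⁻¹) := by rw [← h1]; group
    calc p' = (p'⁻¹)⁻¹ := by group
      _ = _ := by rw [h2]; group
  have fin : p' * q * q' * p = q * q' := by
    calc p' * q * q' * p = q * p⁻¹ * q'⁻¹ * (p * q' * p) := by rw [hpp]; group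
      _ = q * p⁻¹ * q'⁻¹ * (q' * p * q') := by rw [braid]
      _ = q * q' := by group
  calc p * q * q' = p * (q * q') := by group
    _ = p * (p' * q * q' * p) := by rw [fin]
    _ = _ := by group

/-- (C2) -/
lemma C2 {a b : Ltr ι} (hab : a.1 ≠ b.1) :
    𝔤.E a b * TT 𝔤 a 1 = TT 𝔤 b 1 * TT 𝔤 a 1 * 𝔤.E a b := by
  set S : Finset (Ltr ι) := univ.filter (fun x => x.1 ≠ a.1 ∧ x.1 ≠ b.1) with hS
  have hS1 : ∀ x ∈ S, x.1 ≠ a.1 ∧ x.1 ≠ b.1 := fun x hx => (Finset.mem_filter.1 hx).2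
  have hba : b ≠ inv b := ne_inv b
  have haa : a ≠ inv a := ne_inv a
  have d1 : TT 𝔤 a 1 = 𝔤.E b a * 𝔤.E (inv b) a * TT 𝔤 a (ind S) := by
    rw [← TT_single_one, ← TT_single_one, ← TT_add, ← TT_add]
    apply TT_congr
    intro y hy
    simp only [Pi.one_apply, Pi.add_apply, ind_apply]
    by_cases hyb : y.1 = b.1
    · have hyS : y ∉ S := fun h => (hS1 y h).2 hyb
      rcases eq_or_eq_inv hyb with rfl | rfl
      · simp [hyS, hba]
      · simp [hyS, inv_ne]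
    · have hyS : y ∈ S := by rw [hS, Finset.mem_filter]; exact ⟨Finset.mem_univ _, hy, hyb⟩
      have g1 : y ≠ b := fun h => hyb (h ▸ rfl)
      have g2 : y ≠ inv b := fun h => hyb (h ▸ rfl)
      simp [hyS, g1, g2]
  have d2 : TT 𝔤 b 1 = 𝔤.E a b * 𝔤.E (inv a) b * TT 𝔤 b (ind S) := by
    rw [← TT_single_one, ← TT_single_one, ← TT_add, ← TT_add]
    apply TT_congr
    intro y hy
    simp only [Pi.one_apply, Pi.add_apply, ind_apply]
    by_cases hya : y.1 = a.1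
    · have hyS : y ∉ S := fun h => (hS1 y h).1 hya
      rcases eq_or_eq_inv hya with rfl | rfl
      · simp [hyS, haa]
      · simp [hyS, inv_ne]
    · have hyS : y ∈ S := by rw [hS, Finset.mem_filter]; exact ⟨Finset.mem_univ _, hya, hy⟩
      have g1 : y ≠ a := fun h => hya (h ▸ rfl)
      have g2 : y ≠ inv a := fun h => hya (h ▸ rfl)
      simp [hyS, g1, g2]
  have hc : Commute (TT 𝔤 a 1) (TT 𝔤 b (ind S)) := by
    apply TT_commute
    intro y _ hy0
    have hyS : y ∈ S := by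
      by_contra h
      exact hy0 (by simp [ind, h])
    exact (C1 𝔤 (hS1 y hyS).1).symm
  calc 𝔤.E a b * TT 𝔤 a 1
      = (𝔤.E a b * 𝔤.E b a * 𝔤.E (inv b) a) * TT 𝔤 a (ind S) := by rw [d1]; group
    _ = 𝔤.E a b * 𝔤.E (inv a) b * 𝔤.E b a * 𝔤.E (inv b) a * (𝔤.E a b * TT 𝔤 a (ind S)) := by
        rw [rank2 𝔤 hab]; group
    _ = 𝔤.E a b * 𝔤.E (inv a) b * (𝔤.E b a * 𝔤.E (inv b) a * TT 𝔤 a (ind S)) *
          TT 𝔤 b (ind S) * 𝔤.E a b := by rw [P2 𝔤 hab S hS1]; group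
    _ = 𝔤.E a b * 𝔤.E (inv a) b * (TT 𝔤 a 1 * TT 𝔤 b (ind S)) * 𝔤.E a b := by
        rw [← d1]; group
    _ = TT 𝔤 b 1 * TT 𝔤 a 1 * 𝔤.E a b := by rw [hc.eq, d2]; group

/-- (C3) -/
lemma C3 {a b : Ltr ι} (hab : a.1 ≠ b.1) :
    (TT 𝔤 a 1)⁻¹ * 𝔤.E (inv a) b = (TT 𝔤 b 1)⁻¹ * 𝔤.E (inv a) b * (TT 𝔤 a 1)⁻¹ := by
  have h := C2 𝔤 (a := inv a) (b := b) hab
  rw [TT_inv'] at h
  calc (TT 𝔤 a 1)⁻¹ * 𝔤.E (inv a) b
      = (TT 𝔤 b 1)⁻¹ * (TT 𝔤 b 1 * (TT 𝔤 a 1)⁻¹ * 𝔤.E (inv a) b) := by group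
    _ = _ := by rw [← h]; group

end relations

section final

variable [Fintype ι] (𝔤 : Gersten ι G)

omit [Fintype ι] in
/-- The exponents of a Whitehead automorphism. -/
def chi (A : Finset (Option (Ltr ι))) : Ltr ι → ℤ :=
  fun x => (if some x ∈ A then 1 else 0) - (if none ∈ A then 1 else 0)

omit [Fintype ι] in
lemma chi_apply (A : Finset (Option (Ltr ι))) (x : Ltr ι) :
    chi A x = (if some x ∈ A then 1 else 0) - (if none ∈ A then 1 else 0) := rfl

lemma chi_compl (A : Finset (Option (Ltr ι))) : chi Aᶜ = -chi A := by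
  funext x
  simp only [chi_apply, Pi.neg_apply, Finset.mem_compl]
  split_ifs <;> simp_all

/-- the Whitehead element -/
def Tc (a : Ltr ι) (A : Finset (Option (Ltr ι))) : G := TT 𝔤 a (chi A)

lemma Tc_1 (a : Ltr ι) (A : Finset (Option (Ltr ι))) : Tc 𝔤 (inv a) Aᶜ = Tc 𝔤 a A := by
  rw [Tc, Tc, TT_inv, chi_compl, neg_neg]

lemma Tc_2 (a : Ltr ι) (A : Finset (Option (Ltr ι))) (_hA : Adm a A) :
    ∃ A', Adm (inv a) A' ∧ (Tc 𝔤 a A)⁻¹ = Tc 𝔤 (inv a) A' := by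
  refine ⟨insert (some (inv a)) (A.erase (some a)), ⟨by simp, ?_⟩, ?_⟩
  · rw [inv_inv]
    simp [ne_inv]
  · rw [Tc, Tc, TT_inv, ← TT_neg]
    apply TT_congr
    intro y hy
    have g1 : y ≠ a := fun h => hy (h ▸ rfl)
    have g2 : y ≠ inv a := fun h => hy (h ▸ rfl)
    simp [chi_apply, g1, g2]

lemma Tc_3 (a : Ltr ι) (A B : Finset (Option (Ltr ι))) (_hA : Adm a A) (hB : Adm (inv a) B)
    (hd : Disjoint A B) : ∃ A', Adm a A' ∧ Tc 𝔤 (inv a) B = Tc 𝔤 a A' * Tc 𝔤 a A := by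
  refine ⟨insert (some a) (A ∪ B)ᶜ, ⟨by simp, ?_⟩, ?_⟩
  · have := hB.1
    simp [inv_ne, this]
  · rw [Tc, Tc, Tc, TT_inv, ← TT_add]
    apply TT_congr
    intro y hy
    have g1 : y ≠ a := fun h => hy (h ▸ rfl)
    have d1 : some y ∈ A → some y ∉ B := fun h => (Finset.disjoint_left.1 hd) h
    have d2 : none ∈ A → none ∉ B := fun h => (Finset.disjoint_left.1 hd) h
    simp only [chi_apply, Pi.neg_apply, Pi.add_apply, Finset.mem_insert, Finset.mem_compl,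
      Finset.mem_union, Option.some.injEq, g1, false_or, reduceCtorEq]
    by_cases h1 : some y ∈ A <;> by_cases h2 : some y ∈ B <;> by_cases h3 : none ∈ A <;>
      by_cases h4 : none ∈ B <;> simp_all

lemma Tc_4 (a b : Ltr ι) (A B : Finset (Option (Ltr ι))) (hA : Adm a A) (hB : Adm b B)
    (hd : Disjoint A B) (hb : some (inv b) ∉ A) :
    ∃ B', Adm b B' ∧ Tc 𝔤 a A * Tc 𝔤 b B = Tc 𝔤 b B' * Tc 𝔤 a A := by
  have haB : some a ∉ B := fun h => (Finset.disjoint_left.1 hd) hA.1 h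
  have hbA : some b ∉ A := fun h => (Finset.disjoint_left.1 hd) h hB.1
  have hab : a.1 ≠ b.1 := fun h => by
    rcases eq_or_eq_inv h with rfl | rfl
    · exact haB hB.1
    · exact hb hA.1
  set α : ℤ := if none ∈ A then 1 else 0 with hα
  set β : ℤ := if none ∈ B then 1 else 0 with hβ
  set SA : Finset (Ltr ι) := univ.filter (fun x => some x ∈ A ∧ x ≠ a) with hSA
  set SB : Finset (Ltr ι) := univ.filter (fun x => some x ∈ B ∧ x ≠ b ∧ x ≠ inv a) with hSB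
  have mSA : ∀ x, x ∈ SA ↔ some x ∈ A ∧ x ≠ a := fun x => by simp [hSA]
  have mSB : ∀ x, x ∈ SB ↔ some x ∈ B ∧ x ≠ b ∧ x ≠ inv a := fun x => by simp [hSB]
  have pSA : ∀ x ∈ SA, x.1 ≠ a.1 ∧ x.1 ≠ b.1 := by
    intro x hx
    obtain ⟨h1, h2⟩ := (mSA x).1 hx
    constructor
    · intro h
      rcases eq_or_eq_inv h with rfl | rfl
      · exact h2 rfl
      · exact hA.2 h1
    · intro h
      rcases eq_or_eq_inv h with rfl | rfl
      · exact hbA h1
      · exact hb h1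
  have pSB : ∀ x ∈ SB, x.1 ≠ a.1 ∧ x.1 ≠ b.1 := by
    intro x hx
    obtain ⟨h1, h2, h3⟩ := (mSB x).1 hx
    constructor
    · intro h
      rcases eq_or_eq_inv h with rfl | rfl
      · exact haB h1
      · exact h3 rfl
    · intro h
      rcases eq_or_eq_inv h with rfl | rfl
      · exact h2 rfl
      · exact hB.2 h1
  have dS : Disjoint SA SB := by
    rw [Finset.disjoint_left]
    intro x hx hx'
    exact (Finset.disjoint_left.1 hd) ((mSA x).1 hx).1 ((mSB x).1 hx').1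
  set X : G := TT 𝔤 a (ind SA) with hX
  set Y : G := TT 𝔤 b (ind SB) with hY
  set Z : G := TT 𝔤 b (ind SA) with hZ
  set Ca : G := TT 𝔤 a 1 with hCa
  set Cb : G := TT 𝔤 b 1 with hCb
  -- decomposition of the first factor
  have dA : Tc 𝔤 a A = X * Ca ^ (-α) := by
    have e1 : Ca ^ (-α) = TT 𝔤 a (fun _ => -α) := by
      by_cases h : none ∈ A
      · have : α = 1 := by rw [hα, if_pos h]
        rw [this, zpow_neg, zpow_one, hCa, ← TT_neg]
        rfl
      · have : α = 0 := by rw [hα, if_neg h]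
        rw [this, neg_zero, zpow_zero]
        exact (TT_zero 𝔤 a).symm
    rw [e1, hX, ← TT_add, Tc]
    apply TT_congr
    intro y hy
    have g1 : y ≠ a := fun h => hy (h ▸ rfl)
    simp only [chi_apply, Pi.add_apply, ind_apply, mSA, g1, ne_eq, not_false_eq_true, and_true]
    rw [← hα]
    ring
  have cXY : Commute X Y := P3 𝔤 hab SA SB dS pSA pSB
  have cXZ : ∀ x ∈ SB, True := fun _ _ => trivial
  have cCaY : Commute Ca Y := by
    apply TT_commute
    intro y _ hy0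
    have hyS : y ∈ SB := by
      by_contra h
      exact hy0 (by simp [ind, h])
    exact (C1 𝔤 (pSB y hyS).1).symm
  have cCbX : Commute Cb X := by
    apply TT_commute
    intro y _ hy0
    have hyS : y ∈ SA := by
      by_contra h
      exact hy0 (by simp [ind, h])
    exact (C1 𝔤 (pSA y hyS).2).symm
  have hαβ : α = 0 ∨ β = 0 := by
    by_cases h : none ∈ A
    · right
      rw [hβ, if_neg (fun h' => (Finset.disjoint_left.1 hd) h h')]
    · left
      rw [hα, if_neg h]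
  have eCb : ∀ γ : ℤ, Cb ^ γ = TT 𝔤 b (fun _ => γ) := by
    intro γ
    have h1 := TT_unique 𝔤 (MonoidHom.id G) b (fun f => TT 𝔤 b f) (TT_add 𝔤 b)
      (fun x => by simp [TT_single_one])
    let Fh : Multiplicative (Ltr ι → ℤ) →* G :=
      { toFun := fun f => TT 𝔤 b f.toAdd
        map_one' := TT_zero 𝔤 b
        map_mul' := fun f g => TT_add 𝔤 b _ _ }
    have h2 : TT 𝔤 b (fun _ => γ) = Fh ((Multiplicative.ofAdd (1 : Ltr ι → ℤ)) ^ γ) := by
      show _ = TT 𝔤 b _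
      congr 1
      rw [toAdd_zpow, toAdd_ofAdd]
      funext x
      simp
    rw [h2, map_zpow]
    rfl
  by_cases haiB : some (inv a) ∈ B
  · -- the case `a⁻¹ ∈ B`
    set p' : G := 𝔤.E (inv a) b with hp'
    have dB : Tc 𝔤 b B = Y * p' * Cb ^ (-β) := by
      rw [eCb, hY, hp', ← TT_single_one, ← TT_add, ← TT_add, Tc]
      apply TT_congr
      intro y hy
      have g1 : y ≠ b := fun h => hy (h ▸ rfl)
      simp only [chi_apply, Pi.add_apply, ind_apply, mSB, g1, ne_eq, not_false_eq_true, true_and]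
      rw [← hβ]
      by_cases hya : y = inv a
      · subst hya
        simp [haiB]
        ring
      · simp [hya]
        ring
    refine ⟨(A ∪ B).erase (some a), ⟨?_, ?_⟩, ?_⟩
    · have g : b ≠ a := fun h => hab (h ▸ rfl)
      simp [g, hB.1]
    · simp [hb, hB.2]
    · have dB' : Tc 𝔤 b ((A ∪ B).erase (some a)) = Y * Z * p' * Cb ^ (-(α + β)) := by
        rw [eCb, hY, hZ, hp', ← TT_single_one, ← TT_add, ← TT_add, ← TT_add, Tc]
        apply TT_congr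
        intro y hy
        have g1 : y ≠ b := fun h => hy (h ▸ rfl)
        have hn : (if none ∈ (A ∪ B).erase (some a) then (1 : ℤ) else 0) = α + β := by
          simp only [Finset.mem_erase, Finset.mem_union, ne_eq, reduceCtorEq, not_false_eq_true,
            true_and]
          rw [hα, hβ]
          by_cases h : none ∈ A
          · have h' : none ∉ B := fun h' => (Finset.disjoint_left.1 hd) h h'
            simp [h, h']
          · simp [h]
        rw [chi_apply, hn]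
        simp only [Pi.add_apply, ind_apply, mSB, mSA, g1, ne_eq, not_false_eq_true, true_and,
          Finset.mem_erase, Finset.mem_union, Option.some.injEq]
        by_cases hya : y = inv a
        · subst hya
          have h1 : some (inv a) ∉ A := hA.2
          simp [haiB, h1, inv_ne]
          ring
        · have d1 : some y ∈ A → some y ∉ B := fun h => (Finset.disjoint_left.1 hd) h
          by_cases hya' : y = a
          · subst hya'
            simp [haB, hya]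
          · by_cases h1 : some y ∈ A
            · simp [h1, d1 h1, hya, hya']
              ring
            · simp [h1, hya, hya']
              ring
      have hP1 : X * p' = Z * p' * X := P1 𝔤 hab SA pSA
      rcases eq_or_ne α 0 with h0 | h0
      · rw [dA, dB, dB', h0, neg_zero, zpow_zero, mul_one, zero_add]
        calc X * (Y * p' * Cb ^ (-β)) = (X * Y) * p' * Cb ^ (-β) := by group
          _ = Y * (X * p') * Cb ^ (-β) := by rw [cXY.eq]; group
          _ = Y * Z * p' * (X * Cb ^ (-β)) := by rw [hP1]; group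
          _ = Y * Z * p' * Cb ^ (-β) * X := by
              rw [← (cCbX.zpow_left (-β)).eq]; group
      · have hβ0 : β = 0 := by tauto
        have hα1 : α = 1 := by
          rw [hα] at h0 ⊢
          split_ifs at h0 ⊢ with h
          · rfl
          · exact absurd rfl h0
        rw [dA, dB, dB', hα1, hβ0, neg_zero, zpow_zero, mul_one, add_zero, zpow_neg, zpow_one,
          zpow_neg, zpow_one]
        have hC3 : Ca⁻¹ * p' = Cb⁻¹ * p' * Ca⁻¹ := C3 𝔤 hab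
        have cZCb : Commute Z Cb := by
          rw [hZ, hCb]
          show _ = _
          rw [← TT_add, ← TT_add, add_comm]
        have cp'Cb : Commute p' Cb := by
          rw [hp', hCb, ← TT_single_one]
          show _ = _
          rw [← TT_add, ← TT_add, add_comm]
        calc X * Ca⁻¹ * (Y * p') = X * (Ca⁻¹ * Y) * p' := by group
          _ = X * Y * (Ca⁻¹ * p') := by rw [cCaY.inv_left.eq]; group
          _ = X * Y * (Cb⁻¹ * p' * Ca⁻¹) := by rw [hC3]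
          _ = (X * Y) * Cb⁻¹ * p' * Ca⁻¹ := by group
          _ = Y * (X * Cb⁻¹) * p' * Ca⁻¹ := by rw [cXY.eq]; group
          _ = Y * Cb⁻¹ * (X * p') * Ca⁻¹ := by rw [← cCbX.inv_left.eq]; group
          _ = Y * (Cb⁻¹ * (Z * p')) * (X * Ca⁻¹) := by rw [hP1]; group
          _ = Y * ((Z * p') * Cb⁻¹) * (X * Ca⁻¹) := by
              rw [((cZCb.mul_left cp'Cb).inv_right).eq]
          _ = Y * Z * p' * Cb⁻¹ * (X * Ca⁻¹) := by group
  · -- the case `a⁻¹ ∉ B`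
    have dB : Tc 𝔤 b B = Y * Cb ^ (-β) := by
      rw [eCb, hY, ← TT_add, Tc]
      apply TT_congr
      intro y hy
      have g1 : y ≠ b := fun h => hy (h ▸ rfl)
      have g2 : some y ∈ B → y ≠ inv a := fun h h' => haiB (h' ▸ h)
      simp only [chi_apply, Pi.add_apply, ind_apply, mSB, g1, ne_eq, not_false_eq_true, true_and]
      rw [← hβ]
      by_cases h : some y ∈ B
      · simp [h, g2 h]
        ring
      · simp [h]
    refine ⟨B, hB, ?_⟩
    rw [dA, dB]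
    have hcc : Commute (Ca ^ (-α)) (Cb ^ (-β)) := by
      rcases hαβ with h | h
      · rw [h, neg_zero, zpow_zero]
        exact Commute.one_left _
      · rw [h, neg_zero, zpow_zero]
        exact Commute.one_right _
    have hc1 : Commute X (Y * Cb ^ (-β)) := cXY.mul_right (cCbX.symm.zpow_right _)
    have hc2 : Commute (Ca ^ (-α)) (Y * Cb ^ (-β)) := (cCaY.zpow_left _).mul_right hcc
    exact (hc1.mul_left hc2).eq

lemma Tc_5aux (a b : Ltr ι) (A : Finset (Option (Ltr ι))) (hA : Adm a A) (hB : Adm b A)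
    (hab : a ≠ b) (hn : none ∉ A) :
    ∃ (v : W ι) (A' : Finset (Option (Ltr ι))), Adm b A' ∧
      Tc 𝔤 b A = 𝔤.ρ v * Tc 𝔤 b A' * Tc 𝔤 a A := by
  have hab1 : a.1 ≠ b.1 := fun h => by
    rcases eq_or_eq_inv h with h | h
    · exact hab h
    · exact hB.2 (h ▸ hA.1)
  set Y : Finset (Ltr ι) := univ.filter (fun x => some x ∈ A ∧ x ≠ a ∧ x ≠ b) with hY
  have mY : ∀ x, x ∈ Y ↔ some x ∈ A ∧ x ≠ a ∧ x ≠ b := fun x => by simp [hY]
  have pY : ∀ x ∈ Y, x.1 ≠ a.1 ∧ x.1 ≠ b.1 := by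
    intro x hx
    obtain ⟨h1, h2, h3⟩ := (mY x).1 hx
    constructor
    · intro h
      rcases eq_or_eq_inv h with rfl | rfl
      · exact h2 rfl
      · exact hA.2 h1
    · intro h
      rcases eq_or_eq_inv h with rfl | rfl
      · exact h3 rfl
      · exact hB.2 h1
  set v : W ι := sw b (inv a) * sw a (inv a) with hv
  set w : G := 𝔤.ρ v with hw
  have hwr : 𝔤.E a b * (𝔤.E b a)⁻¹ * (𝔤.E (inv a) b)⁻¹ = w := w_rel 𝔤 hab1
  have d1 : Tc 𝔤 b A = TT 𝔤 b (ind Y) * 𝔤.E a b := by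
    rw [← TT_single_one, ← TT_add, Tc]
    apply TT_congr
    intro y hy
    have g1 : y ≠ b := fun h => hy (h ▸ rfl)
    simp only [chi_apply, Pi.add_apply, ind_apply, mY, g1, ne_eq, not_false_eq_true, and_true,
      hn, if_false, sub_zero]
    by_cases hya : y = a
    · subst hya
      simp [hA.1]
    · simp [hya]
  have d2 : Tc 𝔤 a A = TT 𝔤 a (ind Y) * 𝔤.E b a := by
    rw [← TT_single_one, ← TT_add, Tc]
    apply TT_congr
    intro y hy
    have g1 : y ≠ a := fun h => hy (h ▸ rfl)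
    simp only [chi_apply, Pi.add_apply, ind_apply, mY, g1, ne_eq, not_false_eq_true, true_and,
      hn, if_false, sub_zero]
    by_cases hyb : y = b
    · subst hyb
      simp [hB.1]
    · simp [hyb]
  have hwc : TT 𝔤 b (ind Y) * w = w * TT 𝔤 a (ind Y) := by
    have key : ∀ S : Finset (Ltr ι), (∀ x ∈ S, x.1 ≠ a.1 ∧ x.1 ≠ b.1) →
        TT 𝔤 b (ind S) * w = w * TT 𝔤 a (ind S) := by
      intro S
      induction S using Finset.induction_on with
      | empty =>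
        intro _
        rw [TT_empty, TT_empty]; group
      | insert x S hx ih =>
        intro hS
        have hx1 := hS x (Finset.mem_insert_self x S)
        have ih' := ih (fun y hy => hS y (Finset.mem_insert_of_mem hy))
        have e := w_conj 𝔤 hab1 x
        rw [(ap_w hab1).2.2 x hx1.1 hx1.2] at e
        rw [TT_insert 𝔤 a hx, TT_insert 𝔤 b hx, mul_assoc, ih', ← mul_assoc, ← mul_assoc]
        congr 1
        exact e.symm
    exact key Y pY
  refine ⟨v, insert (some (inv a)) (insert (some b) (Y.image some)), ⟨by simp, ?_⟩, ?_⟩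
  · have g1 : inv b ≠ inv a := fun h => hab1 (inv_injective h ▸ rfl)
    have g2 : inv b ∉ Y := fun h => (pY _ h).2 rfl
    simp [g1, inv_ne, g2]
  · have d3 : Tc 𝔤 b (insert (some (inv a)) (insert (some b) (Y.image some))) =
        TT 𝔤 b (ind Y) * 𝔤.E (inv a) b := by
      rw [← TT_single_one, ← TT_add, Tc]
      apply TT_congr
      intro y hy
      have g1 : y ≠ b := fun h => hy (h ▸ rfl)
      have g2 : inv a ∉ Y := fun h => (pY _ h).1 rfl
      by_cases hya : y = inv a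
      · subst hya
        simp [chi_apply, ind_apply, g2]
      · simp [chi_apply, ind_apply, hya, g1]
    rw [d1, d2, d3]
    have hP := P1 𝔤 hab1 Y pY
    have h1 : 𝔤.E a b = w * 𝔤.E (inv a) b * 𝔤.E b a := by rw [← hwr]; group
    calc TT 𝔤 b (ind Y) * 𝔤.E a b
        = (TT 𝔤 b (ind Y) * w) * 𝔤.E (inv a) b * 𝔤.E b a := by rw [h1]; group
      _ = w * (TT 𝔤 a (ind Y) * 𝔤.E (inv a) b) * 𝔤.E b a := by rw [hwc]; group
      _ = w * (TT 𝔤 b (ind Y) * 𝔤.E (inv a) b) * (TT 𝔤 a (ind Y) * 𝔤.E b a) := by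
          rw [hP]; group

lemma Tc_9 (a : Ltr ι) (A : Finset (Option (Ltr ι))) (_hA : Adm a A)
    (h : ∀ x, x ≠ a → some x ∉ A) (hn : none ∉ A) : Tc 𝔤 a A = 1 := by
  apply TT_eq_one
  intro y hy
  have g1 : y ≠ a := fun h => hy (h ▸ rfl)
  simp [chi_apply, h y g1, hn]

lemma Tc_5 (a b : Ltr ι) (A : Finset (Option (Ltr ι))) (hA : Adm a A) (hB : Adm b A) :
    ∃ (v : W ι) (A' : Finset (Option (Ltr ι))), Adm b A' ∧
      Tc 𝔤 b A = 𝔤.ρ v * Tc 𝔤 b A' * Tc 𝔤 a A := by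
  by_cases hab : a = b
  · subst hab
    refine ⟨1, {some a}, ⟨by simp, by simp [inv_ne]⟩, ?_⟩
    rw [Tc_9 𝔤 a {some a} ⟨by simp, by simp [inv_ne]⟩ (fun x hx => by simp [hx]) (by simp)]
    simp
  by_cases hn : none ∈ A
  · -- complement
    have hA' : Adm (inv a) Aᶜ := ⟨by simpa using hA.2, by simpa using hA.1⟩
    have hB' : Adm (inv b) Aᶜ := ⟨by simpa using hB.2, by simpa using hB.1⟩
    obtain ⟨v, A', hA1, h⟩ := Tc_5aux 𝔤 (inv a) (inv b) Aᶜ hA' hB'
      (fun h => hab (inv_injective h)) (by simpa using hn)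
    refine ⟨v, A'ᶜ, ⟨?_, ?_⟩, ?_⟩
    · have := hA1.2
      rw [inv_inv] at this
      simpa using this
    · simpa using hA1.1
    · rw [Tc_1, Tc_1] at h
      rw [h]
      congr 2
      have := Tc_1 𝔤 (inv b) A'
      rw [inv_inv] at this
      exact this.symm
  · exact Tc_5aux 𝔤 a b A hA hB hab hn

lemma Tc_6 (v : W ι) (a : Ltr ι) (A : Finset (Option (Ltr ι))) (hA : Adm a A) :
    ∃ a' A', Adm a' A' ∧ 𝔤.ρ v * Tc 𝔤 a A * (𝔤.ρ v)⁻¹ = Tc 𝔤 a' A' := by
  have mem1 : ∀ x, some x ∈ A.image (Option.map (ap v)) ↔ some (ap v⁻¹ x) ∈ A := by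
    intro x
    rw [Finset.mem_image]
    constructor
    · rintro ⟨y, hy, hxy⟩
      cases y with
      | none => simp at hxy
      | some y =>
        simp only [Option.map_some, Option.some.injEq] at hxy
        rw [← hxy, ap_inv_ap]
        exact hy
    · intro h
      exact ⟨_, h, by simp⟩
  have mem2 : none ∈ A.image (Option.map (ap v)) ↔ none ∈ A := by
    rw [Finset.mem_image]
    constructor
    · rintro ⟨y, hy, hxy⟩
      cases y with
      | none => exact hy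
      | some y => simp at hxy
    · intro h
      exact ⟨_, h, by simp⟩
  refine ⟨ap v a, A.image (Option.map (ap v)), ⟨?_, ?_⟩, ?_⟩
  · rw [mem1, ap_inv_ap]; exact hA.1
  · rw [mem1, ← ap_inv v, ap_inv_ap]; exact hA.2
  · have h := TT_unique 𝔤 (MulAut.conj (𝔤.ρ v)).toMonoidHom a
      (fun f => TT 𝔤 (ap v a) (fun x => f (ap v⁻¹ x))) (fun f g => TT_add 𝔤 _ _ _)
      (fun x => by
        show TT 𝔤 (ap v a) _ = 𝔤.ρ v * 𝔤.E x a * (𝔤.ρ v)⁻¹
        rw [𝔤.E_act, ← TT_single_one]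
        congr 1
        funext y
        by_cases hy : y = ap v x
        · subst hy
          simp
        · have : ap v⁻¹ y ≠ x := fun h => hy (by rw [← h, ap_ap_inv])
          simp [hy, this]) (chi A)
    have h' : TT 𝔤 (ap v a) (fun x => chi A (ap v⁻¹ x)) = 𝔤.ρ v * Tc 𝔤 a A * (𝔤.ρ v)⁻¹ := h
    rw [← h', Tc]
    congr 1
    funext x
    simp only [chi_apply, mem1, mem2]

lemma Tc_7 (x a : Ltr ι) (hx : x.1 ≠ a.1) : ∃ A, Adm a A ∧ 𝔤.E x a = Tc 𝔤 a A := by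
  have g1 : inv a ≠ x := fun h => hx (h ▸ rfl)
  refine ⟨{some x, some a}, ⟨by simp, by simp [g1, inv_ne]⟩, ?_⟩
  rw [Tc, ← TT_single_one]
  apply TT_congr
  intro y hy
  have g2 : y ≠ a := fun h => hy (h ▸ rfl)
  by_cases hyx : y = x
  · subst hyx
    simp [chi_apply]
  · simp [chi_apply, hyx, g2]

lemma Tc_8 (φ : G →* MulAut (FreeGroup ι)) (h : ∀ x a, φ (𝔤.E x a) = tv x a) (a : Ltr ι)
    (A : Finset (Option (Ltr ι))) : φ (Tc 𝔤 a A) = twc a A := by
  have := TT_unique 𝔤 φ a (fun f => tw a f) (fun f g => tw_add a f g)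
    (fun x => (h x a).symm) (chi A)
  exact this.symm

end final

/-! ### Module B (Whitehead automorphisms from Gersten's relations) -/

theorem exists_Tc {ι : Type} [DecidableEq ι] [Fintype ι] {G : Type} [Group G]
    (𝔤 : Gersten ι G) :
    ∃ Tc : Ltr ι → Finset (Option (Ltr ι)) → G,
      (∀ a A, Tc (inv a) Aᶜ = Tc a A) ∧
      (∀ a A, Adm a A → ∃ A', Adm (inv a) A' ∧ (Tc a A)⁻¹ = Tc (inv a) A') ∧
      (∀ a A B, Adm a A → Adm (inv a) B → Disjoint A B →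
        ∃ A', Adm a A' ∧ Tc (inv a) B = Tc a A' * Tc a A) ∧
      (∀ a b A B, Adm a A → Adm b B → Disjoint A B → some (inv b) ∉ A →
        ∃ B', Adm b B' ∧ Tc a A * Tc b B = Tc b B' * Tc a A) ∧
      (∀ a b A, Adm a A → Adm b A →
        ∃ (v : W ι) (A' : _), Adm b A' ∧ Tc b A = 𝔤.ρ v * Tc b A' * Tc a A) ∧
      (∀ v a A, Adm a A → ∃ a' A', Adm a' A' ∧ 𝔤.ρ v * Tc a A * (𝔤.ρ v)⁻¹ = Tc a' A') ∧
      (∀ x a, x.1 ≠ a.1 → ∃ A, Adm a A ∧ 𝔤.E x a = Tc a A) ∧
      (∀ φ : G →* MulAut (FreeGroup ι), (∀ x a, φ (𝔤.E x a) = tv x a) →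
        ∀ a A, φ (Tc a A) = twc a A) ∧
      (∀ a A, Adm a A → (∀ x, x ≠ a → some x ∉ A) → none ∉ A → Tc a A = 1) :=
  ⟨Tc 𝔤, Tc_1 𝔤, Tc_2 𝔤, Tc_3 𝔤, Tc_4 𝔤, Tc_5 𝔤, Tc_6 𝔤, Tc_7 𝔤, Tc_8 𝔤, Tc_9 𝔤⟩

end Pool.Agent.Helper45.OP
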